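import Pool.Agent.Run7.h641.MK.Iface

/-!
# Piece CO of helper641's project MK (Markov numbers)
-/

set_option autoImplicit false

namespace Run7.h611.MK

open Pool.Agent.Run7.h641.MK

lemma plucker {u v : ℤ × ℤ} (hd : det u v = 1) (x y : ℤ × ℤ) :
    det x y = det x v * det u y - det u x * det y v := by
  have hd' := hd
  unfold det at hd' ⊢
  linear_combination (-(x.1 * y.2 - x.2 * y.1)) * hd'

/-- the inequalities for two points of the level set -/
lemma pair_ineq {f : ℤ × ℤ → ℝ} (hCV : CV f) {u v : ℤ × ℤ} (hB : B u v) {a a' L : ℝ} (ha : 0 < a) (ha' : 0 < a')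
    (hfu : 0 < f u) (hfv : 0 < f v)
    (hlow : ∀ w, Q w → IsCoprime w.1 w.2 → 1 ≤ det w v → 1 ≤ det u w →
      (det w v : ℝ) * f u + det u w * a ≤ f w ∧ (det w v : ℝ) * a' + det u w * f v ≤ f w)
    {w w' : ℤ × ℤ} (hw : Q w ∧ IsCoprime w.1 w.2 ∧ 1 ≤ det w v ∧ 1 ≤ det u w ∧ f w = L)
    (hw' : Q w' ∧ IsCoprime w'.1 w'.2 ∧ 1 ≤ det w' v ∧ 1 ≤ det u w' ∧ f w' = L) (hD : 1 ≤ det w w') :
    det u w + 1 ≤ det u w' ∧
      ((det u w' : ℝ) - det u w) * a < ((det w v : ℝ) - det w' v) * f u ∧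
      ((det w v : ℝ) - det w' v) * a' < ((det u w' : ℝ) - det u w) * f v := by
  obtain ⟨hu, hv, hd⟩ := hB
  obtain ⟨q, c, p, r, e⟩ := hw
  obtain ⟨q', c', p', r', e'⟩ := hw'
  have cu : IsCoprime u.1 u.2 := ⟨v.2, -v.1, by have h := hd; unfold det at h; linarith⟩
  have cv : IsCoprime v.1 v.2 := ⟨-u.2, u.1, by have h := hd; unfold det at h; linarith⟩
  have c1 := hCV u w w' hu q q' cu c c' r hD
  have c2 := hCV w w' v q q' hv c c' cv hD p'
  have l1 := (hlow w q c p r).1
  have l2 := (hlow w' q' c' p' r').2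
  have hpl := plucker hd w w'
  have hplR : (det w w' : ℝ) = det w v * det u w' - det u w * det w' v := by exact_mod_cast hpl
  rw [e] at c1 c2 l1
  rw [e'] at c1 c2 l2
  have pR : (1 : ℝ) ≤ det w v := by exact_mod_cast p
  have rR : (1 : ℝ) ≤ det u w := by exact_mod_cast r
  have pR' : (1 : ℝ) ≤ det w' v := by exact_mod_cast p'
  have rR' : (1 : ℝ) ≤ det u w' := by exact_mod_cast r'
  have hDR : (1 : ℝ) ≤ det w w' := by exact_mod_cast hD
  generalize (det w w' : ℝ) = D at *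
  have hy : det u w + 1 ≤ det u w' := by
    by_contra hcon
    have hle : det u w' ≤ det u w := by omega
    have hleR : (det u w' : ℝ) ≤ det u w := by exact_mod_cast hle
    generalize (det u w : ℝ) = β at *
    generalize (det u w' : ℝ) = β' at *
    generalize (det w v : ℝ) = α at *
    generalize (det w' v : ℝ) = α' at *
    -- D = α' (β' - β) + β' (α - α')
    have hD2 : D = α' * (β' - β) + β' * (α - α') := by rw [hplR]; ring
    have h3 : α' * (β' - β) ≤ 0 := mul_nonpos_of_nonneg_of_nonpos (by linarith) (by linarith)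
    have h4 : 1 ≤ β' * (α - α') := by linarith
    have h5 : 0 < α - α' := by
      by_contra h
      have : β' * (α - α') ≤ 0 := mul_nonpos_of_nonneg_of_nonpos (by linarith) (by linarith)
      linarith
    have h6 : D * f v ≤ β' * (α - α') * f v := mul_le_mul_of_nonneg_right (by linarith) hfv.le
    have h7 : 0 < (α - α') * (L - β' * f v) := by
      apply mul_pos h5
      have : 0 < α' * a' := by positivity
      linarith
    nlinarith
  have hyR : (det u w : ℝ) + 1 ≤ det u w' := by exact_mod_cast hy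
  refine ⟨hy, ?_⟩
  generalize (det u w : ℝ) = β at *
  generalize (det u w' : ℝ) = β' at *
  generalize (det w v : ℝ) = α at *
  generalize (det w' v : ℝ) = α' at *
  have k1 : (β' - β) * a < (α - α') * f u := by
    have h3 : (β' - β) * (α * f u + β * a) ≤ (β' - β) * L := mul_le_mul_of_nonneg_left l1 (by linarith)
    have h4 : (β' - β) * L < D * f u := by linarith
    have h5 : D * f u = (α * (β' - β) + β * (α - α')) * f u := by rw [hplR]; ring
    have h6 : β * ((β' - β) * a) < β * ((α - α') * f u) := by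
      rw [h5] at h4
      nlinarith
    exact lt_of_mul_lt_mul_left h6 (by linarith)
  refine ⟨k1, ?_⟩
  have hx : 0 < α - α' := by
    by_contra h
    have h3 : (α - α') * f u ≤ 0 := mul_nonpos_of_nonpos_of_nonneg (by linarith) hfu.le
    have h4 : 0 < (β' - β) * a := mul_pos (by linarith) ha
    linarith
  have h3 : (α - α') * (α' * a' + β' * f v) ≤ (α - α') * L := mul_le_mul_of_nonneg_left l2 hx.le
  have h4 : (α - α') * L < D * f v := by linarith
  have h5 : D * f v = (α' * (β' - β) + β' * (α - α')) * f v := by rw [hplR]; ring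
  have h6 : α' * ((α - α') * a') < α' * ((β' - β) * f v) := by
    rw [h5] at h4
    nlinarith
  exact lt_of_mul_lt_mul_left h6 (by linarith)

theorem t_CO : S_CO := by
  intro f hCV u v hB a a' L ha ha' hfu hfv hL h1 h2 hlow hs w1 w2 w3 hw hd12 hd23
  have g1 := hw w1 (by simp)
  have g2 := hw w2 (by simp)
  have g3 := hw w3 (by simp)
  have ha0 : 0 < a := by linarith
  have ha0' : 0 < a' := by linarith
  have hfu0 : 0 < f u := by linarith
  have hfv0 : 0 < f v := by linarith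
  obtain ⟨y12, k12, m12⟩ := pair_ineq hCV hB ha0 ha0' hfu0 hfv0 hlow g1 g2 hd12
  obtain ⟨y23, k23, m23⟩ := pair_ineq hCV hB ha0 ha0' hfu0 hfv0 hlow g2 g3 hd23
  obtain ⟨hu, hv, hd⟩ := hB
  have c3 := hCV w1 w2 w3 g1.1 g2.1 g3.1 g1.2.1 g2.2.1 g3.2.1 hd12 hd23
  rw [g1.2.2.2.2, g2.2.2.2.2, g3.2.2.2.2] at c3
  have c4 : (det w1 w3 : ℝ) < det w2 w3 + det w1 w2 := by
    have : (det w1 w3 : ℝ) * L < (det w2 w3 + det w1 w2) * L := by linarith
    exact lt_of_mul_lt_mul_right this hL.le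
  have c5 : det w1 w3 < det w2 w3 + det w1 w2 := by exact_mod_cast c4
  rw [plucker hd w1 w3, plucker hd w2 w3, plucker hd w1 w2] at c5
  have c6 : 1 ≤ (det w2 v - det w3 v) * (det u w2 - det u w1) - (det w1 v - det w2 v) * (det u w3 - det u w2) := by
    nlinarith
  have c7 : (1 : ℝ) ≤ ((det w2 v : ℝ) - det w3 v) * (det u w2 - det u w1) -
      ((det w1 v : ℝ) - det w2 v) * (det u w3 - det u w2) := by exact_mod_cast c6
  have l3 := (hlow w3 g3.1 g3.2.1 g3.2.2.1 g3.2.2.2.1).1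
  rw [g3.2.2.2.2] at l3
  have b1 : (1 : ℝ) ≤ det u w1 := by exact_mod_cast g1.2.2.2.1
  have b3 : (1 : ℝ) ≤ det w3 v := by exact_mod_cast g3.2.2.1
  have y12R : (det u w1 : ℝ) + 1 ≤ det u w2 := by exact_mod_cast y12
  have y23R : (det u w2 : ℝ) + 1 ≤ det u w3 := by exact_mod_cast y23
  obtain ⟨Y, hY⟩ : ∃ Y : ℝ, Y = (det u w2 : ℝ) - det u w1 := ⟨_, rfl⟩
  obtain ⟨Y', hY'⟩ : ∃ Y : ℝ, Y = (det u w3 : ℝ) - det u w2 := ⟨_, rfl⟩
  obtain ⟨X, hX⟩ : ∃ Y : ℝ, Y = (det w1 v : ℝ) - det w2 v := ⟨_, rfl⟩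
  obtain ⟨X', hX'⟩ : ∃ Y : ℝ, Y = (det w2 v : ℝ) - det w3 v := ⟨_, rfl⟩
  rw [← hY, ← hX] at k12 m12
  rw [← hY', ← hX'] at k23 m23
  rw [← hY, ← hY', ← hX, ← hX'] at c7
  have hY1 : 1 ≤ Y := by linarith
  have hY1' : 1 ≤ Y' := by linarith
  obtain ⟨s, hs'⟩ : ∃ s, s = f u + f v := ⟨_, rfl⟩
  obtain ⟨η, hη⟩ : ∃ η, η = 26 * Real.exp (-2 * (f u + f v)) := ⟨_, rfl⟩
  rw [← hη] at h1 h2
  rw [← hs'] at hη hs
  have hη0 : 0 < η := by rw [hη]; positivity
  have hs0 : 0 < s := by linarith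
  -- G
  have G : a' * f u < Y * Y' * (f u * f v - a * a') := by
    have e1 : (X' * a') * (f u * Y) < (Y' * f v) * (f u * Y) :=
      mul_lt_mul_of_pos_right m23 (by positivity)
    have e2 : (Y * a) * (a' * Y') < (X * f u) * (a' * Y') :=
      mul_lt_mul_of_pos_right k12 (by positivity)
    have e3 : a' * f u * 1 ≤ a' * f u * (X' * Y - X * Y') :=
      mul_le_mul_of_nonneg_left c7 (by positivity)
    nlinarith
  have H : f u * f v - a * a' ≤ η * s := by
    rcases le_or_gt 0 (f v - η) with h | h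
    · have e1 : (f v - η) * a' ≤ a * a' := mul_le_mul_of_nonneg_right h1 ha0'.le
      have e2 : (f v - η) * (f u - η) ≤ (f v - η) * a' := mul_le_mul_of_nonneg_left h2 h
      rw [hs']
      nlinarith [mul_pos hη0 hη0]
    · have e1 : 0 < a * a' := by positivity
      have e2 : f u * f v ≤ f u * η := mul_le_mul_of_nonneg_left (by linarith) hfu0.le
      rw [hs']
      nlinarith [mul_pos hη0 hfv0]
  have K : (Y + Y') * a ≤ L := by
    have e1 : 0 ≤ (det w3 v : ℝ) * f u := by
      apply mul_nonneg _ hfu0.le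
      linarith
    have e2 : (Y + Y') * a ≤ (det u w3 : ℝ) * a := by
      apply mul_le_mul_of_nonneg_right _ ha0.le
      rw [hY, hY']
      linarith
    linarith
  have K2 : 4 * (Y * Y') * a ^ 2 ≤ L ^ 2 := by
    have e1 : ((Y + Y') * a) ^ 2 ≤ L ^ 2 := by
      apply pow_le_pow_left₀ _ K
      positivity
    nlinarith [mul_nonneg (sq_nonneg (Y - Y')) (sq_nonneg a)]
  have M : L ^ 2 ≤ Real.exp (s - 2) := by
    have e1 : L ^ 2 = Real.exp (2 * Real.log L) := by
      rw [two_mul, Real.exp_add, Real.exp_log hL]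
      ring
    rw [e1]
    apply Real.exp_le_exp.2
    linarith
  have e3 : s ≤ Real.exp (s - 1) := by
    have := Real.add_one_le_exp (s - 1)
    linarith
  have big : L ^ 2 * (η * s) ≤ 26 * Real.exp (-3) := by
    have e4 : η * s ≤ 26 * Real.exp (-2 * s) * Real.exp (s - 1) := by
      rw [hη]
      exact mul_le_mul_of_nonneg_left e3 (by positivity)
    have e5 : L ^ 2 * (η * s) ≤ Real.exp (s - 2) * (26 * Real.exp (-2 * s) * Real.exp (s - 1)) :=
      mul_le_mul M e4 (by positivity) (by positivity)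
    refine e5.trans (le_of_eq ?_)
    have e6 : Real.exp (s - 2) * (26 * Real.exp (-2 * s) * Real.exp (s - 1)) =
        26 * (Real.exp (s - 2) * Real.exp (-2 * s) * Real.exp (s - 1)) := by ring
    rw [e6, ← Real.exp_add, ← Real.exp_add]
    congr 2
    ring
  have e7 : 4 * a ^ 2 * (a' * f u) < L ^ 2 * (η * s) := by
    have e8 : a' * f u < Y * Y' * (η * s) :=
      G.trans_le (mul_le_mul_of_nonneg_left H (by positivity))
    have e9 : 4 * a ^ 2 * (a' * f u) < 4 * a ^ 2 * (Y * Y' * (η * s)) :=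
      mul_lt_mul_of_pos_left e8 (by positivity)
    have e10 : 4 * (Y * Y') * a ^ 2 * (η * s) ≤ L ^ 2 * (η * s) :=
      mul_le_mul_of_nonneg_right K2 (by positivity)
    nlinarith
  have e11 : (4 : ℝ) * (71 / 100) ^ 2 * ((71 / 100) * (96 / 100)) ≤ 4 * a ^ 2 * (a' * f u) := by
    gcongr
  have e12 : Real.exp (-3) ≤ 1 / 19 := by
    rw [Real.exp_neg, ← one_div]
    apply one_div_le_one_div_of_le (by norm_num)
    have e13 : Real.exp 3 = Real.exp 1 ^ 3 := by
      rw [← Real.exp_nat_mul]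
      norm_num
    rw [e13]
    have e14 : (2.71 : ℝ) ≤ Real.exp 1 := by
      have := Real.exp_one_gt_d9
      linarith
    calc (19 : ℝ) ≤ 2.71 ^ 3 := by norm_num
      _ ≤ Real.exp 1 ^ 3 := pow_le_pow_left₀ (by norm_num) e14 3
  norm_num at e11
  linarith

end Run7.h611.MK
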