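import Pool.Agent.Run7.h641.MK.Iface

/-!
# Piece LBC of helper641's project MK (Markov numbers)
-/

set_option autoImplicit false

namespace Run7.h611.MK

open Pool.Agent.Run7.h641.MK

theorem t_LBC : S_LBC := by
  intro f h1 h2 u v hB a
  obtain ⟨hu, hv, hd⟩ := hB
  constructor
  · intro hj w hw hc h0 hb
    obtain ⟨n, hn⟩ : ∃ n : ℕ, (n : ℤ) = det w v + 1 := ⟨(det w v + 1).toNat, Int.toNat_of_nonneg (by omega)⟩
    have hQ : Q (v + (n : ℤ) • u) := by
      obtain ⟨a1, a2⟩ := hu
      obtain ⟨b1, b2⟩ := hv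
      constructor
      · show 0 ≤ v.1 + (n : ℤ) • u.1
        rw [smul_eq_mul]
        positivity
      · show 0 ≤ v.2 + (n : ℤ) • u.2
        rw [smul_eq_mul]
        positivity
    have e1 : det u (v + (n : ℤ) • u) = 1 := by
      have hd' := hd
      unfold det at hd' ⊢
      show u.1 * (v.2 + (n : ℤ) • u.2) - u.2 * (v.1 + (n : ℤ) • u.1) = 1
      rw [smul_eq_mul, smul_eq_mul]
      linear_combination hd'
    have e2 : det (v + (n : ℤ) • u) w = n * det u w - det w v := by
      unfold det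
      show (v.1 + (n : ℤ) • u.1) * w.2 - (v.2 + (n : ℤ) • u.2) * w.1 = _
      rw [smul_eq_mul, smul_eq_mul]
      ring
    have h4 : 1 ≤ det (v + (n : ℤ) • u) w := by
      rw [e2, hn]
      nlinarith
    have h5 := h1 u (v + (n : ℤ) • u) w hu hQ hw hc e1 h4
    rw [e2] at h5
    push_cast at h5
    have h3 := hj n
    have hb' : (1 : ℝ) ≤ det u w := by exact_mod_cast hb
    nlinarith [mul_le_mul_of_nonneg_left h3 (by linarith : (0 : ℝ) ≤ det u w)]
  · intro hj w hw hc h0 hb
    obtain ⟨n, hn⟩ : ∃ n : ℕ, (n : ℤ) = det u w + 1 := ⟨(det u w + 1).toNat, Int.toNat_of_nonneg (by omega)⟩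
    have hQ : Q (u + (n : ℤ) • v) := by
      obtain ⟨a1, a2⟩ := hu
      obtain ⟨b1, b2⟩ := hv
      constructor
      · show 0 ≤ u.1 + (n : ℤ) • v.1
        rw [smul_eq_mul]
        positivity
      · show 0 ≤ u.2 + (n : ℤ) • v.2
        rw [smul_eq_mul]
        positivity
    have e1 : det (u + (n : ℤ) • v) v = 1 := by
      have hd' := hd
      unfold det at hd' ⊢
      show (u.1 + (n : ℤ) • v.1) * v.2 - (u.2 + (n : ℤ) • v.2) * v.1 = 1
      rw [smul_eq_mul, smul_eq_mul]
      linear_combination hd'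
    have e2 : det w (u + (n : ℤ) • v) = n * det w v - det u w := by
      unfold det
      show w.1 * (u.2 + (n : ℤ) • v.2) - w.2 * (u.1 + (n : ℤ) • v.1) = _
      rw [smul_eq_mul, smul_eq_mul]
      ring
    have h4 : 1 ≤ det w (u + (n : ℤ) • v) := by
      rw [e2, hn]
      nlinarith
    have h5 := h2 w (u + (n : ℤ) • v) v hw hQ hv hc h4 e1
    rw [e2] at h5
    push_cast at h5
    have h3 := hj n
    have hb' : (1 : ℝ) ≤ det w v := by exact_mod_cast h0
    nlinarith [mul_le_mul_of_nonneg_left h3 (by linarith : (0 : ℝ) ≤ det w v)]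

end Run7.h611.MK
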